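import Mathlib

set_option autoImplicit false

/-!
Odd distributions at 2-power levels: vanishing of the conjugates of a combination is detected by
any odd distribution whose primitive parts do not vanish.
-/

namespace Pool.Agent.Helper77.Orb

open Polynomial

/-- an odd distribution for the prime 2 -/
structure ODist {E : Type*} [AddCommGroup E] (g : ℚ → E) : Prop where
  per : ∀ x, g (x + 1) = g x
  odd : ∀ x, g (-x) = -g x
  dup : ∀ x, g x + g (x + 1 / 2) = g (2 * x)

/-- functions on the integers with the symmetries of a primitive part of level `2 ^ (n + 2)` -/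
structure USym (n : ℕ) {E : Type*} [AddCommGroup E] (u : ℤ → E) : Prop where
  odd : ∀ j, u (-j) = -u j
  half : ∀ j, u (j + 2 ^ (n + 1)) = -u j

lemma five_pow (n : ℕ) : ∃ q : ℤ, (5 : ℤ) ^ (2 ^ n) = 1 + 2 ^ (n + 2) + 2 ^ (n + 3) * q := by
  induction n with
  | zero => exact ⟨0, by norm_num⟩
  | succ n ih =>
    obtain ⟨q, hq⟩ := ih
    refine ⟨q + 2 ^ n * (1 + 2 * q) ^ 2, ?_⟩
    rw [pow_succ 2 n, pow_mul, hq]
    ring

lemma odd_rep (n : ℕ) (j : ℤ) (hj : Odd j) :
    ∃ (e : ℕ) (ε : ℤ), (ε = 1 ∨ ε = -1) ∧ ∃ t : ℤ, j = ε * 5 ^ e + 2 ^ (n + 2) * t := by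
  induction n with
  | zero =>
    obtain ⟨m, hm⟩ := hj
    rcases Int.even_or_odd' m with ⟨c, hc | hc⟩
    · exact ⟨0, 1, Or.inl rfl, c, by rw [hm, hc]; ring⟩
    · exact ⟨0, -1, Or.inr rfl, c + 1, by rw [hm, hc]; ring⟩
  | succ n ih =>
    obtain ⟨e, ε, hε, t, ht⟩ := ih
    rcases Int.even_or_odd' t with ⟨c, hc | hc⟩
    · exact ⟨e, ε, hε, c, by rw [ht, hc]; ring⟩
    · obtain ⟨q, hq⟩ := five_pow n
      have h5 : Odd ((5 : ℤ) ^ e) := Odd.pow (by decide)
      have hε' : Odd (ε * 5 ^ e) := by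
        rcases hε with h | h
        · rw [h, one_mul]; exact h5
        · rw [h, neg_one_mul]; exact h5.neg
      obtain ⟨d, hd⟩ := hε'
      refine ⟨e + 2 ^ n, ε, hε, c - d - (2 * d + 1) * q, ?_⟩
      have : ε * 5 ^ (e + 2 ^ n) = (ε * 5 ^ e) * 5 ^ (2 ^ n) := by rw [pow_add]; ring
      rw [this, hq, ht, hc, hd]
      ring

section sym

variable {E : Type*} [AddCommGroup E] {n : ℕ} {u : ℤ → E}

lemma USym.per (hu : USym n u) (j t : ℤ) : u (j + 2 ^ (n + 2) * t) = u j := by
  have h1 : ∀ j, u (j + 2 ^ (n + 2)) = u j := by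
    intro j
    have : j + 2 ^ (n + 2) = j + 2 ^ (n + 1) + 2 ^ (n + 1) := by ring
    rw [this, hu.half, hu.half, neg_neg]
  have h2 : ∀ (t : ℕ) (j : ℤ), u (j + 2 ^ (n + 2) * t) = u j := by
    intro t
    induction t with
    | zero => intro j; simp
    | succ t ih =>
      intro j
      have : j + 2 ^ (n + 2) * ((t + 1 : ℕ) : ℤ) = (j + 2 ^ (n + 2)) + 2 ^ (n + 2) * t := by
        push_cast; ring
      rw [this, ih, h1]
  obtain ⟨s, rfl | rfl⟩ := t.eq_nat_or_neg
  · exact h2 s j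
  · have h3 := h2 s (j + 2 ^ (n + 2) * (-(s : ℤ)))
    rw [← h3]
    congr 1
    ring

lemma USym.halfOdd (hu : USym n u) (j t : ℤ) (ht : Odd t) : u (j + 2 ^ (n + 1) * t) = -u j := by
  obtain ⟨d, hd⟩ := ht
  have : j + 2 ^ (n + 1) * t = (j + 2 ^ (n + 1)) + 2 ^ (n + 2) * d := by rw [hd]; ring
  rw [this, hu.per, hu.half]

lemma USym.sgn (hu : USym n u) {ε : ℤ} (hε : ε = 1 ∨ ε = -1) (j : ℤ) : u (ε * j) = ε • u j := by
  rcases hε with rfl | rfl
  · simp
  · rw [neg_one_mul, hu.odd, neg_smul, one_smul]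

end sym

section module

variable {E : Type*} [AddCommGroup E] [Module ℚ E]

/-- the shift -/
def sh : Module.End ℚ (ℕ → E) := LinearMap.funLeft ℚ E fun l => l + 1

lemma sh_pow (e : ℕ) (v : ℕ → E) (l : ℕ) : ((sh ^ e : Module.End ℚ (ℕ → E)) v) l = v (l + e) := by
  induction e generalizing v with
  | zero => rfl
  | succ e ih =>
    rw [pow_succ, Module.End.mul_apply, ih]
    rfl

lemma aeval_sum {ι : Type*} (s : Finset ι) (c : ι → ℚ) (e : ι → ℕ) (v : ℕ → E) (l : ℕ) :
    (aeval (sh (E := E)) (∑ i ∈ s, C (c i) * X ^ e i : ℚ[X]) v) l = ∑ i ∈ s, c i • v (l + e i) := by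
  rw [map_sum, LinearMap.sum_apply, Finset.sum_apply]
  refine Finset.sum_congr rfl fun i _ => ?_
  rw [map_mul, aeval_C, map_pow, aeval_X, Module.End.mul_apply]
  change c i • ((sh ^ e i : Module.End ℚ (ℕ → E)) v) l = _
  rw [sh_pow]

lemma cyc_zero {n : ℕ} {u : ℤ → E} (hu : USym n u) {m : ℤ} (hm : Odd m) :
    aeval (sh (E := E)) (cyclotomic (2 ^ n) ℚ) (fun l : ℕ => u (m * 5 ^ l)) = 0 := by
  funext l
  cases n with
  | zero =>
    rw [pow_zero, cyclotomic_one, map_sub, aeval_X, map_one, LinearMap.sub_apply]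
    change u (m * 5 ^ (l + 1)) - u (m * 5 ^ l) = 0
    have : m * 5 ^ (l + 1) = m * 5 ^ l + 2 ^ (0 + 2) * (m * 5 ^ l) := by ring
    rw [this, hu.per, sub_self]
  | succ n =>
    rw [cyclotomic_prime_pow_eq_geom_sum Nat.prime_two, Finset.sum_range_succ,
      Finset.sum_range_one, pow_zero, pow_one, map_add, map_one, map_pow, aeval_X,
      LinearMap.add_apply, Pi.add_apply, sh_pow]
    change u (m * 5 ^ l) + u (m * 5 ^ (l + 2 ^ n)) = 0
    obtain ⟨q, hq⟩ := five_pow n
    have h5 : Odd (m * (5 : ℤ) ^ l) := hm.mul (Odd.pow (by decide))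
    have : m * 5 ^ (l + 2 ^ n) = (m * 5 ^ l) + 2 ^ (n + 1 + 1) * ((m * 5 ^ l) * (1 + 2 * q)) := by
      rw [pow_add, ← mul_assoc, hq]
      ring
    rw [this, hu.halfOdd _ _ (h5.mul ⟨q, by ring⟩), add_neg_cancel]

lemma key_eval {F : Type*} [AddCommGroup F] [Module ℚ F] {n : ℕ} {w : ℤ → F} (hw : USym n w)
    {ι : Type*} (s : Finset ι) (c : ι → ℚ) (y : ι → ℤ) (e : ι → ℕ) (ε : ι → ℤ)
    (hr : ∀ i ∈ s, (ε i = 1 ∨ ε i = -1) ∧ ∃ t : ℤ, y i = ε i * 5 ^ e i + 2 ^ (n + 2) * t)
    (m : ℤ) (l : ℕ) :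
    (aeval (sh (E := F)) (∑ i ∈ s, C (c i * ε i) * X ^ e i : ℚ[X])
      (fun l : ℕ => w (m * 5 ^ l))) l = ∑ i ∈ s, c i • w ((m * 5 ^ l) * y i) := by
  rw [aeval_sum]
  refine Finset.sum_congr rfl fun i hi => ?_
  obtain ⟨h1, t, ht⟩ := hr i hi
  have e1 : (m * 5 ^ l) * y i = ε i * (m * 5 ^ (l + e i)) + 2 ^ (n + 2) * (m * 5 ^ l * t) := by
    rw [ht, pow_add]; ring
  rw [e1, hw.per, hw.sgn h1, mul_smul]
  congr 1
  rw [Int.cast_smul_eq_zsmul]

end module

/-- the irreducibility of the primitive part of level `2 ^ (n + 2)` -/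
theorem prim {E E' : Type*} [AddCommGroup E] [Module ℚ E] [AddCommGroup E'] [Module ℚ E']
    {n : ℕ} {u : ℤ → E} (hu : USym n u) {u' : ℤ → E'} (hu' : USym n u')
    (hne : ∃ j : ℤ, Odd j ∧ u j ≠ 0) {ι : Type*} (s : Finset ι) (c : ι → ℚ) (y : ι → ℤ)
    (hy : ∀ i ∈ s, Odd (y i)) (h : ∀ m : ℤ, Odd m → ∑ i ∈ s, c i • u (m * y i) = 0) :
    ∀ m : ℤ, Odd m → ∑ i ∈ s, c i • u' (m * y i) = 0 := by
  classical
  have hr : ∀ i, ∃ (e : ℕ) (ε : ℤ), i ∈ s → (ε = 1 ∨ ε = -1) ∧
      ∃ t : ℤ, y i = ε * 5 ^ e + 2 ^ (n + 2) * t := by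
    intro i
    by_cases hi : i ∈ s
    · obtain ⟨e, ε, h1, h2⟩ := odd_rep n (y i) (hy i hi)
      exact ⟨e, ε, fun _ => ⟨h1, h2⟩⟩
    · exact ⟨0, 0, fun h => absurd h hi⟩
  choose e ε hr using hr
  set P : ℚ[X] := ∑ i ∈ s, C (c i * ε i) * X ^ e i with hP
  have hirr : Irreducible (cyclotomic (2 ^ n) ℚ) := cyclotomic.irreducible_rat (by positivity)
  rcases hirr.isCoprime_or_dvd P with hc | hd
  · exfalso
    obtain ⟨A, B, hAB⟩ := hc
    have hz : ∀ l : ℕ, u (5 ^ l) = 0 := by
      intro l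
      have h1 : aeval (sh (E := E)) (A * cyclotomic (2 ^ n) ℚ + B * P)
          (fun l : ℕ => u (1 * 5 ^ l)) = 0 := by
        rw [map_add, map_mul, map_mul, LinearMap.add_apply, Module.End.mul_apply,
          Module.End.mul_apply, cyc_zero hu odd_one, map_zero, zero_add]
        have h2 : aeval (sh (E := E)) P (fun l : ℕ => u (1 * 5 ^ l)) = 0 := by
          funext l
          rw [hP, key_eval hu s c y e ε hr 1 l]
          exact h _ (odd_one.mul (Odd.pow (by decide)))
        rw [h2, map_zero]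
      rw [hAB, map_one] at h1
      have h3 := congrFun h1 l
      change u (1 * 5 ^ l) = 0 at h3
      rwa [one_mul] at h3
    obtain ⟨j, hj, hj0⟩ := hne
    obtain ⟨e', ε', h1, t, ht⟩ := odd_rep n j hj
    apply hj0
    rw [ht, hu.per, hu.sgn h1, hz, smul_zero]
  · intro m hm
    obtain ⟨Q, hQ⟩ := hd
    have h1 := key_eval hu' s c y e ε hr m 0
    rw [← hP] at h1
    rw [hQ, mul_comm, map_mul, Module.End.mul_apply, cyc_zero hu' hm, map_zero] at h1
    have h2 : (0 : ℕ → E') 0 = 0 := rfl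
    rw [h2, pow_zero, mul_one] at h1
    exact h1.symm

section core

variable {E : Type*} [AddCommGroup E] [Module ℚ E] {g : ℚ → E}

lemma ODist.perInt {E : Type*} [AddCommGroup E] {g : ℚ → E} (hg : ODist g) (x : ℚ) (z : ℤ) :
    g (x + z) = g x := by
  have h1 : ∀ (n : ℕ) (x : ℚ), g (x + n) = g x := by
    intro n
    induction n with
    | zero => intro x; simp
    | succ n ih =>
      intro x
      rw [Nat.cast_succ, ← add_assoc, hg.per, ih]
  obtain ⟨n, rfl | rfl⟩ := z.eq_nat_or_neg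
  · exact_mod_cast h1 n x
  · have h2 := h1 n (x + ((-(n : ℤ) : ℤ) : ℚ))
    rw [← h2]
    congr 1
    push_cast
    ring

lemma ODist.int (hg : ODist g) (z : ℤ) : g z = 0 := by
  have h0 : g 0 = 0 := by
    have h1 := hg.odd 0
    rw [neg_zero, eq_neg_iff_add_eq_zero, ← two_smul ℚ] at h1
    rcases smul_eq_zero.1 h1 with h2 | h2
    · norm_num at h2
    · exact h2
  have h1 := hg.perInt 0 z
  rw [zero_add] at h1
  rw [h1, h0]

lemma ODist.halfInt (hg : ODist g) {x : ℚ} {z : ℤ} (hx : 2 * x = z) : g x = 0 := by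
  have h1 := hg.odd x
  have h2 : -x = x + ((-z : ℤ) : ℚ) := by push_cast; linarith
  rw [h2, hg.perInt, eq_neg_iff_add_eq_zero, ← two_smul ℚ] at h1
  rcases smul_eq_zero.1 h1 with h2 | h2
  · norm_num at h2
  · exact h2

/-- the primitive part of level `2 ^ (n + 2)` -/
def pp {E : Type*} [AddCommGroup E] (n : ℕ) (g : ℚ → E) (j : ℤ) : E :=
  g (j / 2 ^ (n + 2)) - g (j / 2 ^ (n + 2) + 1 / 2)

lemma ODist.sym {E : Type*} [AddCommGroup E] {g : ℚ → E} (hg : ODist g) (n : ℕ) :
    USym n (pp n g) := by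
  refine ⟨fun j => ?_, fun j => ?_⟩
  · unfold pp
    have h1 : (((-j : ℤ) : ℚ) / 2 ^ (n + 2)) = -((j : ℚ) / 2 ^ (n + 2)) := by push_cast; ring
    have h2 : (((-j : ℤ) : ℚ) / 2 ^ (n + 2) + 1 / 2) =
        -((j : ℚ) / 2 ^ (n + 2) + 1 / 2) + ((1 : ℤ) : ℚ) := by push_cast; ring
    rw [h2, hg.perInt, h1, hg.odd, hg.odd]
    abel
  · unfold pp
    have h1 : (((j + 2 ^ (n + 1) : ℤ) : ℚ) / 2 ^ (n + 2)) = (j : ℚ) / 2 ^ (n + 2) + 1 / 2 := by
      push_cast
      field_simp
      ring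
    rw [h1]
    have h2 : (j : ℚ) / 2 ^ (n + 2) + 1 / 2 + 1 / 2 = (j : ℚ) / 2 ^ (n + 2) + 1 := by ring
    rw [h2, hg.per]
    abel

lemma red {E : Type*} [AddCommGroup E] [Module ℚ E] {g : ℚ → E} (hg : ODist g) {ι : Type*}
    [Fintype ι] [DecidableEq ι] (n : ℕ) (c x : ι → ℚ) (y : ι → ℤ)
    (hy : ∀ i, x i = y i / 2 ^ (n + 2)) (s : Finset ι) (m : ℤ) :
    ∑ i, c i • g (m * x i) =
      ∑ i, (if i ∈ s then c i / 2 else c i) • g (m * (if i ∈ s then 2 * x i else x i)) +
        (1 / 2 : ℚ) • ∑ i ∈ s, c i • pp n g (m * y i) := by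
  have h1 : ∑ i ∈ s, c i • pp n g (m * y i) =
      ∑ i, if i ∈ s then c i • pp n g (m * y i) else 0 := by
    rw [Finset.sum_ite_mem, Finset.univ_inter]
  rw [h1, Finset.smul_sum, ← Finset.sum_add_distrib]
  refine Finset.sum_congr rfl fun i _ => ?_
  split_ifs with hi
  · unfold pp
    have e1 : (((m * y i : ℤ) : ℚ) / 2 ^ (n + 2)) = m * x i := by
      rw [hy]; push_cast; ring
    have e2 : (m : ℚ) * (2 * x i) = 2 * (m * x i) := by ring
    rw [e1, e2, ← hg.dup, smul_add, smul_sub, smul_sub, smul_smul, smul_smul]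
    have e3 : (1 / 2 : ℚ) * c i = c i / 2 := by ring
    rw [e3]
    have e4 : c i = c i / 2 + c i / 2 := by ring
    conv_lhs => rw [e4, add_smul]
    abel
  · rw [smul_zero, add_zero]

end core

/-- vanishing of all odd multiples is detected by any odd distribution with nonvanishing primitive
parts -/
theorem core {E E' : Type*} [AddCommGroup E] [Module ℚ E] [AddCommGroup E'] [Module ℚ E']
    {g : ℚ → E} (hg : ODist g) {g' : ℚ → E'} (hg' : ODist g') {ι : Type*} [Fintype ι] (n : ℕ)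
    (nv : ∀ s, s + 2 ≤ n → ∃ j : ℤ, Odd j ∧ pp s g j ≠ 0) :
    ∀ (c x : ι → ℚ), (∀ i, ∃ z : ℤ, 2 ^ n * x i = z) →
      (∀ m : ℤ, Odd m → ∑ i, c i • g (m * x i) = 0) →
      ∀ m : ℤ, Odd m → ∑ i, c i • g' (m * x i) = 0 := by
  classical
  have low : ∀ (c x : ι → ℚ), (∀ i, ∃ z : ℤ, 2 * x i = z) →
      ∀ m : ℤ, ∑ i, c i • g' (m * x i) = 0 := by
    intro c x hx m
    refine Finset.sum_eq_zero fun i _ => ?_
    obtain ⟨z, hz⟩ := hx i
    have h1 : 2 * ((m : ℚ) * x i) = ((m * z : ℤ) : ℚ) := by push_cast; rw [← hz]; ring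
    rw [hg'.halfInt h1, smul_zero]
  induction n with
  | zero =>
    intro c x hx _ m _
    refine low c x (fun i => ?_) m
    obtain ⟨z, hz⟩ := hx i
    rw [pow_zero, one_mul] at hz
    exact ⟨2 * z, by rw [hz]; push_cast; ring⟩
  | succ n ih =>
    cases n with
    | zero =>
      intro c x hx _ m _
      refine low c x (fun i => ?_) m
      obtain ⟨z, hz⟩ := hx i
      exact ⟨z, by rw [← hz]; ring⟩
    | succ n =>
      intro c x hx h m hm
      choose y hy using hx
      have hy2 : ∀ i, x i = y i / 2 ^ (n + 2) := by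
        intro i
        rw [← hy i]
        field_simp
      set s : Finset ι := Finset.univ.filter fun i => Odd (y i) with hs
      -- the primitive part
      have hp : ∀ m : ℤ, Odd m → ∑ i ∈ s, c i • pp n g (m * y i) = 0 := by
        intro m hm
        have h1 := h m hm
        have h2 := h (m * (1 + 2 ^ (n + 1))) (hm.mul ⟨2 ^ n, by ring⟩)
        have h3 : ∑ i, c i • g (m * x i) - ∑ i, c i • g ((m * (1 + 2 ^ (n + 1)) : ℤ) * x i) =
            ∑ i, if i ∈ s then c i • pp n g (m * y i) else 0 := by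
          rw [← Finset.sum_sub_distrib]
          refine Finset.sum_congr rfl fun i _ => ?_
          rw [← smul_sub]
          split_ifs with hi
          · rw [hs, Finset.mem_filter] at hi
            congr 1
            unfold pp
            have e1 : (((m * y i : ℤ) : ℚ) / 2 ^ (n + 2)) = m * x i := by
              rw [hy2]; push_cast; ring
            rw [e1]
            obtain ⟨d, hd⟩ := hm.mul hi.2
            have e2 : (((m * (1 + 2 ^ (n + 1)) : ℤ) : ℚ)) * x i =
                ((m : ℚ) * x i + 1 / 2) + (d : ℤ) := by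
              have e3 : ((m * y i : ℤ) : ℚ) = ((2 * d + 1 : ℤ) : ℚ) := by rw [hd]
              push_cast at e3 ⊢
              rw [hy2]
              have e4 : (m : ℚ) * (1 + 2 ^ (n + 1)) * (y i / 2 ^ (n + 2)) =
                  m * (y i / 2 ^ (n + 2)) + (m * y i) / 2 := by
                field_simp
                ring
              rw [e4, e3]
              ring
            rw [e2, hg.perInt]
          · rw [hs, Finset.mem_filter] at hi
            have hi' : Even (y i) := by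
              rw [← Int.not_odd_iff_even]
              exact fun h => hi ⟨Finset.mem_univ _, h⟩
            obtain ⟨d, hd⟩ := hi'
            have e2 : (((m * (1 + 2 ^ (n + 1)) : ℤ) : ℚ)) * x i =
                ((m : ℚ) * x i) + ((m * d : ℤ) : ℚ) := by
              push_cast
              have e3 : (y i : ℚ) = 2 * d := by rw [hd]; push_cast; ring
              rw [hy2, e3]
              field_simp
              ring
            rw [e2, hg.perInt, sub_self, smul_zero]
        rw [h1, h2, sub_zero, Finset.sum_ite_mem, Finset.univ_inter] at h3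
        exact h3.symm
      have hp' : ∀ m : ℤ, Odd m → ∑ i ∈ s, c i • pp n g' (m * y i) = 0 :=
        prim (hg.sym n) (hg'.sym n) (nv n le_rfl) s c y
          (fun i hi => by rw [hs, Finset.mem_filter] at hi; exact hi.2) hp
      -- the reduction
      set c' : ι → ℚ := fun i => if i ∈ s then c i / 2 else c i with hc'
      set x' : ι → ℚ := fun i => if i ∈ s then 2 * x i else x i with hx'
      have r1 : ∀ m : ℤ, Odd m → ∑ i, c' i • g (m * x' i) = 0 := by
        intro m hm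
        have h1 := red hg n c x y hy2 s m
        rw [h m hm, hp m hm, smul_zero, add_zero] at h1
        exact h1.symm
      have r2 : ∀ i, ∃ z : ℤ, 2 ^ (n + 1) * x' i = z := by
        intro i
        by_cases hi : i ∈ s
        · refine ⟨y i, ?_⟩
          rw [hx']
          simp only [if_pos hi]
          rw [← hy i]
          ring
        · have hi' : Even (y i) := by
            rw [← Int.not_odd_iff_even]
            exact fun h => hi (by rw [hs, Finset.mem_filter]; exact ⟨Finset.mem_univ _, h⟩)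
          obtain ⟨d, hd⟩ := hi'
          refine ⟨d, ?_⟩
          rw [hx']
          simp only [if_neg hi]
          have e3 : (y i : ℚ) = 2 * d := by rw [hd]; push_cast; ring
          rw [hy2, e3]
          field_simp
          ring
      have h4 := ih (fun s hs => nv s (by omega)) c' x' r2 r1 m hm
      rw [red hg' n c x y hy2 s m, h4, hp' m hm, smul_zero, add_zero]

end Pool.Agent.Helper77.Orb
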