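import Pool.Agent.GP.DedMi
import Pool.Agent.GP.Sym
import Pool.Agent.Helper77.Orb.Core

set_option autoImplicit false

/-!
The classes of gamma values and the sawtooth function as odd distributions.
-/

namespace Pool.Agent.Helper77.Orb

open Pool.Agent.GP.DedM

variable {M : Submodule ℚ ℝ}

/-- the normalised class of the gamma value at the fractional part -/
noncomputable def gam (M : Submodule ℚ ℝ) (x : ℚ) : ℝ ⧸ M :=
  if Int.fract x = 0 then 0 else nc M (Int.fract x)

/-- the sawtooth function -/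
def saw (x : ℚ) : ℚ := if Int.fract x = 0 then 0 else Int.fract x - 1 / 2

lemma nc_dup (hM : HasAlg M) {x : ℚ} (hx : 0 < x) : nc M x + nc M (x + 1 / 2) = nc M (2 * x) := by
  have hx' : (0 : ℝ) < x := by exact_mod_cast hx
  have g1 := Real.Gamma_pos_of_pos hx'
  have g2 := Real.Gamma_pos_of_pos (show (0 : ℝ) < x + 1 / 2 by linarith)
  have g3 := Real.Gamma_pos_of_pos (show (0 : ℝ) < 2 * x by linarith)
  unfold nc
  rw [← map_add, cl_eq]
  have h := congrArg Real.log (Real.Gamma_mul_Gamma_add_half (x : ℝ))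
  have hp : (0 : ℝ) < 2 ^ (1 - 2 * (x : ℝ)) := Real.rpow_pos_of_pos two_pos _
  rw [Real.log_mul g1.ne' g2.ne', Real.log_mul (mul_pos g3 hp).ne'
    (Real.sqrt_pos.2 Real.pi_pos).ne', Real.log_mul g3.ne' hp.ne', Real.log_rpow two_pos,
    Real.log_sqrt Real.pi_pos.le] at h
  have e : Real.log (Real.Gamma ((x : ℚ) : ℝ)) - (1 / 2 : ℚ) • Real.log Real.pi +
      (Real.log (Real.Gamma ((x + 1 / 2 : ℚ) : ℝ)) - (1 / 2 : ℚ) • Real.log Real.pi) -
      (Real.log (Real.Gamma ((2 * x : ℚ) : ℝ)) - (1 / 2 : ℚ) • Real.log Real.pi) =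
      (1 - 2 * x) • Real.log 2 := by
    rw [Rat.smul_def, Rat.smul_def]
    push_cast
    linarith
  rw [e]
  refine M.smul_mem _ (hM 2 two_pos ?_)
  exact isAlgebraic_algebraMap (A := ℝ) (2 : ℚ)

lemma fract_cases (x : ℚ) : (∃ z : ℤ, x = z) ∨ (∃ z : ℤ, x = 1 / 2 + z) ∨
    (∃ (z : ℤ) (t : ℚ), 0 < t ∧ t < 1 / 2 ∧ (x = t + z ∨ x = t + 1 / 2 + z)) := by
  have h0 := Int.fract_nonneg x
  have h1 := Int.fract_lt_one x
  have h2 := Int.fract_add_floor x
  rcases lt_trichotomy (Int.fract x) (1 / 2) with h | h | h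
  · rcases eq_or_lt_of_le h0 with h3 | h3
    · left
      refine ⟨⌊x⌋, ?_⟩
      rw [← h3, zero_add] at h2
      exact h2.symm
    · right; right
      exact ⟨⌊x⌋, Int.fract x, h3, h, Or.inl h2.symm⟩
  · right; left
    refine ⟨⌊x⌋, ?_⟩
    rw [h] at h2
    exact h2.symm
  · right; right
    exact ⟨⌊x⌋, Int.fract x - 1 / 2, by linarith, by linarith, Or.inr (by linarith)⟩

lemma fr {t : ℚ} (z : ℤ) (h0 : 0 ≤ t) (h1 : t < 1) : Int.fract (t + z) = t := by
  rw [Int.fract_add_intCast, Int.fract_eq_self]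
  exact ⟨h0, h1⟩

lemma odist_of {E : Type*} [AddCommGroup E] [Module ℚ E] (f : ℚ → E)
    (hr : ∀ t, 0 < t → t < 1 → f (1 - t) = -f t)
    (hd : ∀ t, 0 < t → t < 1 / 2 → f t + f (t + 1 / 2) = f (2 * t)) :
    ODist fun x : ℚ => if Int.fract x = 0 then (0 : E) else f (Int.fract x) := by
  have hh : f (1 / 2) = 0 := by
    have h1 := hr (1 / 2) (by norm_num) (by norm_num)
    have h2 : (1 : ℚ) - 1 / 2 = 1 / 2 := by norm_num
    rw [h2, eq_neg_iff_add_eq_zero, ← two_smul ℚ] at h1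
    rcases smul_eq_zero.1 h1 with h3 | h3
    · norm_num at h3
    · exact h3
  refine ⟨fun x => ?_, fun x => ?_, fun x => ?_⟩
  · simp only [Int.fract_add_one]
  · by_cases h : Int.fract x = 0
    · have h' : Int.fract (-x) = 0 := by rwa [Int.fract_neg_eq_zero]
      simp only [h, h', if_true, neg_zero]
    · have h' : Int.fract (-x) = 1 - Int.fract x := Int.fract_neg h
      have h1 := Int.fract_lt_one x
      have h0 : 0 < Int.fract x := lt_of_le_of_ne (Int.fract_nonneg x) (Ne.symm h)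
      have h2 : (1 : ℚ) - Int.fract x ≠ 0 := by linarith
      simp only [h, h', if_false, h2]
      exact hr _ h0 h1
  · rcases fract_cases x with ⟨z, hz⟩ | ⟨z, hz⟩ | ⟨z, t, h0, h1, hz | hz⟩
    · have a1 : Int.fract x = 0 := by rw [hz, Int.fract_intCast]
      have a2 : Int.fract (x + 1 / 2) = 1 / 2 := by
        rw [hz, add_comm]; exact fr z (by norm_num) (by norm_num)
      have a3 : Int.fract (2 * x) = 0 := by
        have : 2 * x = ((2 * z : ℤ) : ℚ) := by rw [hz]; push_cast; ring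
        rw [this, Int.fract_intCast]
      have n2 : (1 / 2 : ℚ) ≠ 0 := by norm_num
      simp only [a1, a2, a3, if_true, if_neg n2, hh, add_zero]
    · have a1 : Int.fract x = 1 / 2 := by
        rw [hz]; exact fr z (by norm_num) (by norm_num)
      have a2 : Int.fract (x + 1 / 2) = 0 := by
        have : x + 1 / 2 = ((z + 1 : ℤ) : ℚ) := by rw [hz]; push_cast; ring
        rw [this, Int.fract_intCast]
      have a3 : Int.fract (2 * x) = 0 := by
        have : 2 * x = ((2 * z + 1 : ℤ) : ℚ) := by rw [hz]; push_cast; ring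
        rw [this, Int.fract_intCast]
      have n2 : (1 / 2 : ℚ) ≠ 0 := by norm_num
      simp only [a1, a2, a3, if_true, if_neg n2, hh, add_zero]
    · have a1 : Int.fract x = t := by rw [hz]; exact fr z h0.le (by linarith)
      have a2 : Int.fract (x + 1 / 2) = t + 1 / 2 := by
        have : x + 1 / 2 = (t + 1 / 2) + z := by rw [hz]; ring
        rw [this]; exact fr z (by linarith) (by linarith)
      have a3 : Int.fract (2 * x) = 2 * t := by
        have : 2 * x = 2 * t + ((2 * z : ℤ) : ℚ) := by rw [hz]; push_cast; ring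
        rw [this]; exact fr _ (by linarith) (by linarith)
      have n1 : t ≠ 0 := h0.ne'
      have n2 : t + 1 / 2 ≠ 0 := by linarith
      have n3 : 2 * t ≠ 0 := by linarith
      simp only [a1, a2, a3, if_neg n1, if_neg n2, if_neg n3]
      exact hd t h0 h1
    · have a1 : Int.fract x = t + 1 / 2 := by rw [hz]; exact fr z (by linarith) (by linarith)
      have a2 : Int.fract (x + 1 / 2) = t := by
        have : x + 1 / 2 = t + ((z + 1 : ℤ) : ℚ) := by rw [hz]; push_cast; ring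
        rw [this]; exact fr _ h0.le (by linarith)
      have a3 : Int.fract (2 * x) = 2 * t := by
        have : 2 * x = 2 * t + ((2 * z + 1 : ℤ) : ℚ) := by rw [hz]; push_cast; ring
        rw [this]; exact fr _ (by linarith) (by linarith)
      have n1 : t ≠ 0 := h0.ne'
      have n2 : t + 1 / 2 ≠ 0 := by linarith
      have n3 : 2 * t ≠ 0 := by linarith
      simp only [a1, a2, a3, if_neg n1, if_neg n2, if_neg n3]
      rw [add_comm]
      exact hd t h0 h1

lemma gam_odist (hM : HasAlg M) : ODist (gam M) :=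
  odist_of (nc M) (fun _ h0 h1 => nc_refl hM h0 h1) (fun _ h0 _ => nc_dup hM h0)

lemma saw_odist : ODist saw :=
  odist_of (fun t : ℚ => t - 1 / 2) (fun _ _ _ => by ring) (fun _ _ _ => by ring)

lemma nc_eq_gam (hM : HasAlg M) {x : ℚ} (hx : ∀ k : ℕ, x ≠ -(k : ℚ)) (hz : ∀ z : ℤ, x ≠ z) :
    nc M x = gam M x := by
  have h0 : Int.fract x ≠ 0 := by
    intro h
    have h2 := Int.fract_add_floor x
    rw [h, zero_add] at h2
    exact hz _ h2.symm
  have h1 : 0 < Int.fract x := lt_of_le_of_ne (Int.fract_nonneg x) (Ne.symm h0)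
  rw [gam, if_neg h0]
  exact nc_shift hM x _ hx h1 ⌊x⌋ (Int.fract_add_floor x).symm

lemma nc_int (hM : HasAlg M) {x : ℚ} (hx : ∀ k : ℕ, x ≠ -(k : ℚ)) {z : ℤ} (hz : x = z) :
    nc M x = -((1 / 2 : ℚ) • cl M (Real.log Real.pi)) := by
  rw [← nc_one]
  exact nc_shift hM x 1 hx one_pos (z - 1) (by rw [hz]; push_cast; ring)

lemma saw_nv (s : ℕ) : ∃ j : ℤ, Odd j ∧ pp s saw j ≠ 0 := by
  refine ⟨1, odd_one, ?_⟩
  have hp : (0 : ℚ) < 1 / 2 ^ (s + 2) := by positivity
  have hl : (1 : ℚ) / 2 ^ (s + 2) ≤ 1 / 4 := by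
    apply one_div_le_one_div_of_le (by norm_num)
    calc (4 : ℚ) = 2 ^ 2 := by norm_num
      _ ≤ 2 ^ (s + 2) := pow_le_pow_right₀ (by norm_num) (by omega)
  unfold pp saw
  have e : (((1 : ℤ) : ℚ) / 2 ^ (s + 2)) = 1 / 2 ^ (s + 2) := by push_cast; rfl
  rw [e]
  set t : ℚ := 1 / 2 ^ (s + 2) with ht
  have a1 : Int.fract t = t := Int.fract_eq_self.2 ⟨hp.le, by linarith⟩
  have a2 : Int.fract (t + 1 / 2) = t + 1 / 2 := Int.fract_eq_self.2 ⟨by linarith, by linarith⟩
  rw [a1, a2, if_neg hp.ne', if_neg (by linarith)]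
  intro h
  linarith

end Pool.Agent.Helper77.Orb
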