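import Pool.Agent.Helper77.Orb.Gam

set_option autoImplicit false

/-!
The orbit form of the equivalence at 2-power levels.
-/

namespace Pool.Agent.Helper77.Orb

open Pool.Agent.GP.DedM IntermediateField

lemma not_int_of_odd {s : ℕ} {t : ℤ} (ht : Odd t) (z : ℤ) : (t : ℚ) / 2 ^ (s + 1) ≠ z := by
  intro h
  rw [div_eq_iff (by positivity)] at h
  have h2 : t = z * 2 ^ (s + 1) := by exact_mod_cast h
  rw [h2, pow_succ, ← mul_assoc] at ht
  exact (Int.not_even_iff_odd.2 ht) ⟨z * 2 ^ s, by ring⟩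

lemma gam_nv {θ : ℂ} (hpi : Real.log Real.pi ∈ LA θ) (s : ℕ) :
    ∃ j : ℤ, Odd j ∧ pp s (gam (LA θ)) j ≠ 0 := by
  classical
  by_contra hcon
  push Not at hcon
  have hM := LA_hasAlg θ
  set D : ℕ := 2 ^ (s + 2) with hD
  have hD4 : 4 ≤ D := by
    calc 4 = 2 ^ 2 := by norm_num
      _ ≤ 2 ^ (s + 2) := Nat.pow_le_pow_right (by norm_num) (by omega)
  have hDr : (0 : ℝ) < D := by
    have : 0 < D := by omega
    exact_mod_cast this
  have hk : 2 ^ (s + 1) + 2 ^ (s + 1) = D := by rw [hD]; ring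
  have hk2 : 2 ≤ 2 ^ (s + 1) := by
    calc 2 = 2 ^ 1 := by norm_num
      _ ≤ 2 ^ (s + 1) := Nat.pow_le_pow_right (by norm_num) (by omega)
  have h1 := Pool.Agent.GP.thmA_sym D 1 (2 ^ (s + 1)) (by omega)
    (by intro h; exact absurd (Nat.le_of_dvd one_pos h) (by omega))
    (by intro h; exact absurd (Nat.le_of_dvd (by omega) h) (by omega))
    (by intro h; exact absurd (Nat.le_of_dvd (by omega) h) (by omega))
    (Or.inl (Nat.coprime_one_left D)) θ
  have h2 : (Finset.range D).filter (fun t => t.Coprime D ∧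
      IsAlgebraic (IntermediateField.adjoin ℚ {θ})
        (((Real.Gamma ((t * 1 % D : ℕ) / D) * Real.Gamma ((t * 2 ^ (s + 1) % D : ℕ) / D) /
          Real.Gamma ((t * 1 % D : ℕ) / D + (t * 2 ^ (s + 1) % D : ℕ) / D) : ℝ)) : ℂ)) =
      (Finset.range D).filter (fun t => D.Coprime t) := by
    apply Finset.filter_congr
    intro t ht
    rw [Finset.mem_range] at ht
    constructor
    · rintro ⟨h, -⟩
      exact h.symm
    · intro h
      refine ⟨h.symm, ?_⟩
      have hto : Odd t := by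
        rw [← Nat.coprime_two_right]
        exact (Nat.Coprime.coprime_dvd_left (⟨2 ^ (s + 1), by rw [hD]; ring⟩) h).symm
      have e1 : t * 1 % D = t := by rw [mul_one, Nat.mod_eq_of_lt ht]
      have e2 : t * 2 ^ (s + 1) % D = 2 ^ (s + 1) := by
        obtain ⟨d, hd⟩ := hto
        have : t * 2 ^ (s + 1) = 2 ^ (s + 1) + D * d := by rw [hd, hD]; ring
        rw [this, Nat.add_mul_mod_self_left, Nat.mod_eq_of_lt (by omega)]
      have e3 : (((2 ^ (s + 1) : ℕ) : ℝ) / D) = 1 / 2 := by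
        rw [div_eq_div_iff hDr.ne' two_ne_zero, ← hk]
        push_cast
        ring
      rw [e1, e2, e3]
      have ht0 : 0 < t := hto.pos
      have htq : (0 : ℚ) < t := by exact_mod_cast ht0
      have htr : (0 : ℝ) < t := by exact_mod_cast ht0
      have hx0 : (0 : ℝ) < (t : ℝ) / D := div_pos htr hDr
      have g1 := Real.Gamma_pos_of_pos hx0
      have g2 := Real.Gamma_pos_of_pos (show (0 : ℝ) < 1 / 2 by norm_num)
      have g3 := Real.Gamma_pos_of_pos (show (0 : ℝ) < (t : ℝ) / D + 1 / 2 by linarith)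
      rw [← log_mem_LA (by positivity), ← cl_eq_zero,
        Real.log_div (mul_pos g1 g2).ne' g3.ne', Real.log_mul g1.ne' g2.ne']
      set x : ℚ := (t : ℚ) / 2 ^ (s + 2) with hx
      have hxr : ((x : ℚ) : ℝ) = (t : ℝ) / D := by rw [hx, hD]; push_cast; rfl
      have hxr2 : ((x + 1 / 2 : ℚ) : ℝ) = (t : ℝ) / D + 1 / 2 := by push_cast; rw [hxr]
      have hxp : 0 < x := by rw [hx]; positivity
      have n1 : nc (LA θ) x + nc (LA θ) (1 / 2) - nc (LA θ) (x + 1 / 2) =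
          cl (LA θ) (Real.log (Real.Gamma ((t : ℝ) / D)) + Real.log (Real.Gamma (1 / 2)) -
            Real.log (Real.Gamma ((t : ℝ) / D + 1 / 2))) -
            (1 / 2 : ℚ) • cl (LA θ) (Real.log Real.pi) := by
        unfold nc
        rw [hxr, hxr2, ← map_add, ← map_sub, ← map_smul, ← map_sub]
        congr 1
        have : (((1 / 2 : ℚ)) : ℝ) = 1 / 2 := by norm_num
        rw [this]
        abel
      rw [nc_half hM, cl_eq_zero.2 hpi, smul_zero, sub_zero, add_zero] at n1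
      rw [← n1]
      have hit : Odd (t : ℤ) := by exact_mod_cast hto
      have hpp := hcon (t : ℤ) hit
      unfold pp at hpp
      have e4 : (((t : ℤ) : ℚ) / 2 ^ (s + 2)) = x := by rw [hx]; push_cast; rfl
      rw [e4] at hpp
      have pos_ne : ∀ y : ℚ, 0 < y → ∀ k : ℕ, y ≠ -(k : ℚ) := by
        intro y hy k hk
        have : (0 : ℚ) ≤ k := by positivity
        linarith
      rw [nc_eq_gam hM (pos_ne x hxp) (fun z => by rw [← e4]; exact not_int_of_odd hit z),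
        nc_eq_gam hM (pos_ne _ (by linarith)) ?_]
      · exact hpp
      · intro z hz
        have h5 : Odd ((t : ℤ) + 2 ^ (s + 1)) := hit.add_even ⟨2 ^ s, by ring⟩
        apply not_int_of_odd (s := s + 1) h5 z
        rw [← hz, hx]
        push_cast
        field_simp
        ring
  have h3 : ((Finset.range D).filter (fun t => D.Coprime t)).card = D.totient := rfl
  rw [h2, h3] at h1
  have h4 : 0 < D.totient := Nat.totient_pos.2 (by omega)
  omega

lemma fract_of_saw {k r : ℕ} (hk : 1 ≤ k) (a : Fin r → ℚ) (hint : ∀ (i : Fin r) (z : ℤ), a i ≠ z)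
    (hD : ∀ i, ∃ z : ℤ, (2 : ℚ) ^ k * a i = z) {m : ℤ} (hm : Odd m)
    (h : ∑ i, (1 : ℚ) • saw (m * a i) = 0) : ∑ i, Int.fract ((m : ℚ) * a i) = (r : ℚ) / 2 := by
  have hni : ∀ i, Int.fract ((m : ℚ) * a i) ≠ 0 := by
    intro i h0
    obtain ⟨z, hz⟩ := hD i
    have h1 := Int.self_sub_fract ((m : ℚ) * a i)
    rw [h0, sub_zero] at h1
    set w := ⌊(m : ℚ) * a i⌋
    have hc : IsCoprime m ((2 : ℤ) ^ k) := by
      apply IsCoprime.pow_right
      obtain ⟨d, hd⟩ := hm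
      exact ⟨1, -d, by rw [hd]; ring⟩
    obtain ⟨u, v, huv⟩ := hc
    apply hint i (u * w + v * z)
    have h3 : ((u : ℚ) * m + v * 2 ^ k) = 1 := by exact_mod_cast huv
    push_cast
    rw [← h1, ← hz]
    calc a i = ((u : ℚ) * m + v * 2 ^ k) * a i := by rw [h3, one_mul]
      _ = _ := by ring
  have h2 : ∑ i, (1 : ℚ) • saw (m * a i) = ∑ i, (Int.fract ((m : ℚ) * a i) - 1 / 2) := by
    refine Finset.sum_congr rfl fun i _ => ?_
    rw [one_smul, saw, if_neg (hni i)]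
  have _ := hk
  rw [h2, Finset.sum_sub_distrib, Finset.sum_const, Finset.card_univ, Fintype.card_fin,
    nsmul_eq_mul] at h
  linarith

/-- the gamma product is an algebraic multiple of `π ^ (r / 2)` -/
def GammaMult {r : ℕ} (a : Fin r → ℚ) : Prop :=
  ∃ α : ℝ, IsAlgebraic ℚ α ∧ ∏ i, Real.Gamma ((a i : ℚ) : ℝ) = α * Real.pi ^ ((r : ℝ) / 2)

/-- the fractional part identity for the common denominator `D` -/
def FracId (D : ℕ) {r : ℕ} (a : Fin r → ℚ) : Prop :=
  ∀ m : ℕ, 1 ≤ m → m ≤ D → Nat.Coprime m D → ∑ i, Int.fract ((m : ℚ) * a i) = (r : ℚ) / 2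

section

variable {k r : ℕ} {a : Fin r → ℚ}

lemma odd_of_cop (hk : 1 ≤ k) {m : ℕ} (h : Nat.Coprime m (2 ^ k)) : Odd m := by
  rw [← Nat.coprime_two_right]
  exact Nat.Coprime.coprime_dvd_right (dvd_pow_self 2 (by omega)) h

lemma cop_of_odd {m : ℕ} (h : Odd m) : Nat.Coprime m (2 ^ k) :=
  (Nat.coprime_two_right.2 h).pow_right k

/-- odd multiples of admissible non-integers are admissible non-integers -/
lemma mul_adm {x : ℚ} (hnp : ∀ n : ℕ, x ≠ -(n : ℚ)) (hD : ∃ z : ℤ, (2 : ℚ) ^ k * x = z) {m : ℕ}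
    (hm : Odd m) (n : ℕ) : (m : ℚ) * x ≠ -(n : ℚ) := by
  intro h
  obtain ⟨z, hz⟩ := hD
  have hm0 : (0 : ℚ) < m := by exact_mod_cast hm.pos
  have hx : x ≤ 0 := by
    by_contra hx
    push Not at hx
    have h1 := mul_pos hm0 hx
    have h2 : (0 : ℚ) ≤ n := by positivity
    linarith
  have hc : IsCoprime (m : ℤ) ((2 : ℤ) ^ k) := by
    apply IsCoprime.pow_right
    obtain ⟨d, hd⟩ := hm
    exact ⟨1, -d, by rw [hd]; push_cast; ring⟩
  obtain ⟨u, v, huv⟩ := hc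
  have h3 : ((u : ℚ) * m + v * 2 ^ k) = 1 := by exact_mod_cast huv
  have h4 : x = ((u * (-(n : ℤ)) + v * z : ℤ) : ℚ) := by
    push_cast
    calc x = ((u : ℚ) * m + v * 2 ^ k) * x := by rw [h3, one_mul]
      _ = u * (m * x) + v * (2 ^ k * x) := by ring
      _ = _ := by rw [h, hz]
  set w : ℤ := u * (-(n : ℤ)) + v * z with hw
  have h5 : w ≤ 0 := by
    have : (w : ℚ) ≤ 0 := by rw [← h4]; exact hx
    exact_mod_cast this
  apply hnp w.natAbs
  have h6 : (w.natAbs : ℤ) = -w := by omega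
  have h7 : ((w.natAbs : ℕ) : ℚ) = -(w : ℚ) := by
    rw [← Int.cast_natCast (R := ℚ) w.natAbs, h6, Int.cast_neg]
  rw [h7, neg_neg, h4]

lemma mul_nonint {x : ℚ} (hint : ∀ z : ℤ, x ≠ z) (hD : ∃ z : ℤ, (2 : ℚ) ^ k * x = z) {m : ℤ}
    (hm : Odd m) (w : ℤ) : (m : ℚ) * x ≠ w := by
  intro h
  obtain ⟨z, hz⟩ := hD
  have hc : IsCoprime m ((2 : ℤ) ^ k) := by
    apply IsCoprime.pow_right
    obtain ⟨d, hd⟩ := hm
    exact ⟨1, -d, by rw [hd]; ring⟩
  obtain ⟨u, v, huv⟩ := hc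
  apply hint (u * w + v * z)
  have h3 : ((u : ℚ) * m + v * 2 ^ k) = 1 := by exact_mod_cast huv
  push_cast
  rw [← h, ← hz]
  calc x = ((u : ℚ) * m + v * 2 ^ k) * x := by rw [h3, one_mul]
    _ = _ := by ring

/-- from the residues to all odd integers -/
lemma spread {E : Type*} [AddCommGroup E] {g : ℚ → E} (hg : ODist g) (hk : 1 ≤ k)
    (hD : ∀ i, ∃ z : ℤ, (2 : ℚ) ^ k * a i = z) {e : E}
    (h : ∀ m : ℕ, m < 2 ^ k → Odd m → ∑ i, g (m * a i) = e) {m : ℤ} (hm : Odd m) :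
    ∑ i, g (m * a i) = e := by
  have hp : (0 : ℤ) < 2 ^ k := by positivity
  have h0 := Int.emod_nonneg m hp.ne'
  have h1 := Int.emod_lt_of_pos m hp
  have h2 := Int.emod_add_mul_ediv m (2 ^ k)
  obtain ⟨n, hn⟩ := Int.eq_ofNat_of_zero_le h0
  set q := m / 2 ^ k with hq
  rw [hn] at h1 h2
  have hodd : Odd n := by
    have h3 : Odd ((n : ℤ)) := by
      have h4 : (n : ℤ) = m - 2 ^ k * q := by linarith
      rw [h4]
      refine hm.sub_even ?_
      obtain ⟨j, rfl⟩ : ∃ j, k = j + 1 := ⟨k - 1, by omega⟩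
      exact ⟨2 ^ j * q, by ring⟩
    exact_mod_cast h3
  have h5 : n < 2 ^ k := by exact_mod_cast h1
  rw [← h n h5 hodd]
  refine Finset.sum_congr rfl fun i _ => ?_
  obtain ⟨z, hz⟩ := hD i
  have h6 : (m : ℚ) * a i = (n : ℚ) * a i + ((q * z : ℤ) : ℚ) := by
    have h7 : (m : ℚ) = n + 2 ^ k * q := by exact_mod_cast h2.symm
    rw [h7]
    push_cast
    rw [← hz]
    ring
  rw [h6, hg.perInt]

lemma sum_gam (θ : ℂ) (hnp : ∀ (i : Fin r) (n : ℕ), a i ≠ -(n : ℚ))
    (hint : ∀ (i : Fin r) (z : ℤ), a i ≠ z) (hD : ∀ i, ∃ z : ℤ, (2 : ℚ) ^ k * a i = z) {m : ℕ}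
    (hm : Odd m) : ∑ i, nc (LA θ) (m * a i) = ∑ i, gam (LA θ) (m * a i) := by
  refine Finset.sum_congr rfl fun i _ => ?_
  have hm' : Odd (m : ℤ) := by exact_mod_cast hm
  exact nc_eq_gam (LA_hasAlg θ) (mul_adm (hnp i) (hD i) hm)
    (fun z => by exact_mod_cast mul_nonint (hint i) (hD i) hm' z)

/-- the main step -/
theorem nonint_core (θ : ℂ) (hk : 1 ≤ k) (hr : 1 ≤ r)
    (hnp : ∀ (i : Fin r) (n : ℕ), a i ≠ -(n : ℚ)) (hint : ∀ (i : Fin r) (z : ℤ), a i ≠ z)
    (hD : ∀ i, ∃ z : ℤ, (2 : ℚ) ^ k * a i = z)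
    (h : ∀ m : ℕ, m < 2 ^ k → Odd m →
      ∑ i, nc (LA θ) (m * a i) = -(((r : ℚ) / 2) • cl (LA θ) (Real.log Real.pi))) :
    FracId (2 ^ k) a := by
  have hM := LA_hasAlg θ
  have hg := gam_odist hM
  have h1 : ∀ m : ℤ, Odd m → ∑ i, gam (LA θ) (m * a i) =
      -(((r : ℚ) / 2) • cl (LA θ) (Real.log Real.pi)) := fun m hm =>
    spread hg hk hD (fun m hm1 hm2 => by rw [← sum_gam θ hnp hint hD hm2]; exact h m hm1 hm2) hm
  have hpi : cl (LA θ) (Real.log Real.pi) = 0 := by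
    have h2 := h1 1 odd_one
    have h3 := h1 (-1) (by decide)
    have h4 : ∑ i, gam (LA θ) (((-1 : ℤ) : ℚ) * a i) =
        -∑ i, gam (LA θ) (((1 : ℤ) : ℚ) * a i) := by
      rw [← Finset.sum_neg_distrib]
      refine Finset.sum_congr rfl fun i _ => ?_
      rw [← hg.odd]
      congr 1
      push_cast
      ring
    rw [h2, h3, neg_neg, neg_eq_iff_add_eq_zero, ← add_smul] at h4
    rcases smul_eq_zero.1 h4 with h5 | h5
    · exfalso
      have : (0 : ℚ) < r := by exact_mod_cast hr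
      linarith
    · exact h5
  have h5 : ∀ m : ℤ, Odd m → ∑ i, (1 : ℚ) • gam (LA θ) (m * a i) = 0 := by
    intro m hm
    have h6 := h1 m hm
    rw [hpi, smul_zero, neg_zero] at h6
    simpa only [one_smul] using h6
  intro m _ _ hm
  have hmo : Odd (m : ℤ) := by exact_mod_cast odd_of_cop hk hm
  have h7 := core hg saw_odist k (fun s _ => gam_nv (cl_eq_zero.1 hpi) s) (fun _ => 1) a hD h5
    (m : ℤ) hmo
  exact_mod_cast fract_of_saw hk a hint hD hmo h7

lemma fract_ne_zero (hint : ∀ (i : Fin r) (z : ℤ), a i ≠ z)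
    (hD : ∀ i, ∃ z : ℤ, (2 : ℚ) ^ k * a i = z) {m : ℤ} (hm : Odd m) (i : Fin r) :
    Int.fract ((m : ℚ) * a i) ≠ 0 := by
  intro h0
  have h1 := Int.self_sub_fract ((m : ℚ) * a i)
  rw [h0, sub_zero] at h1
  exact mul_nonint (hint i) (hD i) hm _ h1

/-- transcendence degree at most one implies the identity -/
theorem of_algebraic (θ : ℂ) (hk : 1 ≤ k) (hr : 1 ≤ r)
    (hnp : ∀ (i : Fin r) (n : ℕ), a i ≠ -(n : ℚ)) (hint : ∀ (i : Fin r) (z : ℤ), a i ≠ z)
    (hD : ∀ i, ∃ z : ℤ, (2 : ℚ) ^ k * a i = z)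
    (h : ∀ m : ℕ, m < 2 ^ k → Odd m →
      IsAlgebraic ℚ⟮θ⟯ ((∏ i, Real.Gamma (((m : ℚ) * a i : ℚ) : ℝ) : ℝ) : ℂ)) :
    FracId (2 ^ k) a := by
  refine nonint_core θ hk hr hnp hint hD fun m hm1 hm2 => ?_
  have hne : ∀ i, Real.Gamma (((m : ℚ) * a i : ℚ) : ℝ) ≠ 0 := fun i =>
    gamma_ne _ (mul_adm (hnp i) (hD i) hm2)
  set P := ∏ i, Real.Gamma (((m : ℚ) * a i : ℚ) : ℝ) with hP
  have hP0 : P ≠ 0 := Finset.prod_ne_zero_iff.2 fun i _ => hne i
  have h1 : Real.log P ∈ LA θ := by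
    rw [← Real.log_abs, log_mem_LA (abs_pos.2 hP0)]
    have h2 := h m hm1 hm2
    rcases abs_choice P with h3 | h3
    · rw [h3]; exact h2
    · rw [h3]
      push_cast
      exact h2.neg
  have h2 : ∑ i, nc (LA θ) (m * a i) =
      cl (LA θ) (Real.log P) - ((r : ℚ) / 2) • cl (LA θ) (Real.log Real.pi) := by
    unfold nc
    rw [← map_sum, Finset.sum_sub_distrib, ← Real.log_prod (fun i _ => hne i), ← hP,
      Finset.sum_const, Finset.card_univ, Fintype.card_fin, map_sub, map_nsmul, map_smul,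
      ← Nat.cast_smul_eq_nsmul ℚ, smul_smul]
    congr 2
    ring
  rw [h2, cl_eq_zero.2 h1, zero_sub]

/-- if all products are algebraic multiples of a power of `π` there is no integral entry -/
lemma no_int_of_mult (hk : 1 ≤ k) (hnp : ∀ (i : Fin r) (n : ℕ), a i ≠ -(n : ℚ))
    (hD : ∀ i, ∃ z : ℤ, (2 : ℚ) ^ k * a i = z)
    (h : ∀ m : ℕ, m < 2 ^ k → Odd m → GammaMult fun i => (m : ℚ) * a i) (i : Fin r) (z : ℤ) :
    a i ≠ z := by
  classical
  intro hz
  have hM := LA_hasAlg 0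
  have hpi : cl (LA 0) (Real.log Real.pi) ≠ 0 := by
    intro h0
    have h1 := mem_zero (cl_eq_zero.1 h0)
    rw [Real.exp_log Real.pi_pos] at h1
    exact pi_transcendental thmAll h1
  have h2k : 2 ≤ 2 ^ k := by
    calc 2 = 2 ^ 1 := by norm_num
      _ ≤ 2 ^ k := Nat.pow_le_pow_right (by norm_num) hk
  have hev : Even (2 ^ k) := (Nat.even_pow.2 ⟨even_two, by omega⟩)
  have ho : Odd (2 ^ k - 1) := by
    obtain ⟨d, hd⟩ := hev
    exact ⟨d - 1, by omega⟩
  have s1 := sum_nc hM (fun i => ((1 : ℕ) : ℚ) * a i)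
    (fun i => mul_adm (hnp i) (hD i) odd_one) (h 1 (by omega) odd_one)
  have s2 := sum_nc hM (fun i => ((2 ^ k - 1 : ℕ) : ℚ) * a i)
    (fun i => mul_adm (hnp i) (hD i) ho) (h (2 ^ k - 1) (by omega) ho)
  have hterm : ∀ i, nc (LA 0) (((1 : ℕ) : ℚ) * a i) + nc (LA 0) (((2 ^ k - 1 : ℕ) : ℚ) * a i) =
      (if ∃ z : ℤ, a i = z then (-1 : ℚ) else 0) • cl (LA 0) (Real.log Real.pi) := by
    intro i
    split_ifs with hi
    · obtain ⟨w, hw⟩ := hi
      rw [nc_int hM (mul_adm (hnp i) (hD i) odd_one) (z := w) (by rw [hw]; push_cast; ring),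
        nc_int hM (mul_adm (hnp i) (hD i) ho) (z := (2 ^ k - 1 : ℕ) * w)
          (by rw [hw]; push_cast; ring), ← neg_smul, ← add_smul]
      norm_num
    · push Not at hi
      have o1 : Odd (((1 : ℕ) : ℤ)) := by exact_mod_cast odd_one
      have o2 : Odd (((2 ^ k - 1 : ℕ) : ℤ)) := by exact_mod_cast ho
      rw [nc_eq_gam hM (mul_adm (hnp i) (hD i) odd_one)
          (fun z => by exact_mod_cast mul_nonint hi (hD i) o1 z),
        nc_eq_gam hM (mul_adm (hnp i) (hD i) ho)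
          (fun z => by exact_mod_cast mul_nonint hi (hD i) o2 z), zero_smul]
      obtain ⟨w, hw⟩ := hD i
      have e1 : ((2 ^ k - 1 : ℕ) : ℚ) * a i = -(((1 : ℕ) : ℚ) * a i) + (w : ℤ) := by
        rw [Nat.cast_sub (by omega), ← hw]
        push_cast
        ring
      rw [e1, (gam_odist hM).perInt, (gam_odist hM).odd, add_neg_cancel]
  have h3 : (∑ i, (if ∃ z : ℤ, a i = z then (-1 : ℚ) else 0)) •
      cl (LA 0) (Real.log Real.pi) = 0 := by
    rw [Finset.sum_smul, ← Finset.sum_congr rfl fun i _ => hterm i, Finset.sum_add_distrib, s1,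
      s2, add_zero]
  rcases smul_eq_zero.1 h3 with h4 | h4
  · have h5 : ∑ i, (if ∃ z : ℤ, a i = z then (-1 : ℚ) else 0) < ∑ _i : Fin r, (0 : ℚ) := by
      apply Finset.sum_lt_sum
      · intro j _
        split_ifs <;> norm_num
      · refine ⟨i, Finset.mem_univ i, ?_⟩
        rw [if_pos ⟨z, hz⟩]
        norm_num
    rw [h4, Finset.sum_const_zero] at h5
    exact lt_irrefl _ h5
  · exact hpi h4

/-- the identity implies that there is no integral entry -/
lemma no_int_of_frac (hk : 1 ≤ k) (hD : ∀ i, ∃ z : ℤ, (2 : ℚ) ^ k * a i = z)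
    (h : FracId (2 ^ k) a) (i : Fin r) (z : ℤ) : a i ≠ z := by
  classical
  intro hz
  have h2k : 2 ≤ 2 ^ k := by
    calc 2 = 2 ^ 1 := by norm_num
      _ ≤ 2 ^ k := Nat.pow_le_pow_right (by norm_num) hk
  have hev : Even (2 ^ k) := (Nat.even_pow.2 ⟨even_two, by omega⟩)
  have ho : Odd (2 ^ k - 1) := by
    obtain ⟨d, hd⟩ := hev
    exact ⟨d - 1, by omega⟩
  have s1 := h 1 le_rfl (by omega) (Nat.coprime_one_left _)
  have s2 := h (2 ^ k - 1) (by omega) (by omega) (cop_of_odd ho)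
  have hterm : ∀ i, Int.fract (((1 : ℕ) : ℚ) * a i) + Int.fract (((2 ^ k - 1 : ℕ) : ℚ) * a i) ≤
      1 := by
    intro i
    obtain ⟨w, hw⟩ := hD i
    have e1 : ((2 ^ k - 1 : ℕ) : ℚ) * a i = -(((1 : ℕ) : ℚ) * a i) + (w : ℤ) := by
      rw [Nat.cast_sub (by omega), ← hw]
      push_cast
      ring
    rw [e1, Int.fract_add_intCast]
    by_cases h0 : Int.fract (((1 : ℕ) : ℚ) * a i) = 0
    · rw [h0, zero_add]
      exact (Int.fract_lt_one _).le
    · rw [Int.fract_neg h0]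
      linarith
  have h5 : ∑ i, (Int.fract (((1 : ℕ) : ℚ) * a i) +
      Int.fract (((2 ^ k - 1 : ℕ) : ℚ) * a i)) < ∑ _i : Fin r, (1 : ℚ) := by
    apply Finset.sum_lt_sum (fun j _ => hterm j)
    refine ⟨i, Finset.mem_univ i, ?_⟩
    rw [hz]
    have e1 : (((1 : ℕ) : ℚ) * (z : ℚ)) = ((z : ℤ) : ℚ) := by push_cast; ring
    have e2 : (((2 ^ k - 1 : ℕ) : ℚ) * (z : ℚ)) = (((2 ^ k - 1 : ℕ) * z : ℤ) : ℚ) := by
      push_cast; ring
    rw [e1, e2, Int.fract_intCast, Int.fract_intCast]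
    norm_num
  rw [Finset.sum_add_distrib, s1, s2, Finset.sum_const, Finset.card_univ, Fintype.card_fin,
    nsmul_eq_mul, mul_one] at h5
  linarith

/-- the orbit form of the equivalence -/
theorem orbit (hk : 1 ≤ k) (hr : 1 ≤ r) (hnp : ∀ (i : Fin r) (n : ℕ), a i ≠ -(n : ℚ))
    (hD : ∀ i, ∃ z : ℤ, (2 : ℚ) ^ k * a i = z) :
    FracId (2 ^ k) a ↔ ∀ m : ℕ, m < 2 ^ k → Odd m → GammaMult fun i => (m : ℚ) * a i := by
  constructor
  · intro h m hm1 hm2
    have hint := no_int_of_frac hk hD h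
    have hs : ∀ m : ℤ, Odd m → ∑ i, (1 : ℚ) • saw (m * a i) = 0 := by
      intro m hm
      simp only [one_smul]
      refine spread saw_odist hk hD (fun m hm1 hm2 => ?_) hm
      have h1 := h m hm2.pos hm1.le (cop_of_odd hm2)
      have hm' : Odd (m : ℤ) := by exact_mod_cast hm2
      have h2 : ∑ i, saw (m * a i) = ∑ i, (Int.fract ((m : ℚ) * a i) - 1 / 2) := by
        refine Finset.sum_congr rfl fun i _ => ?_
        have h3 := fract_ne_zero hint hD hm' i
        rw [Int.cast_natCast] at h3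
        rw [saw, if_neg h3]
      rw [h2, Finset.sum_sub_distrib, h1, Finset.sum_const, Finset.card_univ, Fintype.card_fin,
        nsmul_eq_mul]
      ring
    have hm' : Odd (m : ℤ) := by exact_mod_cast hm2
    have h4 := core saw_odist (gam_odist (LA_hasAlg 0)) k (fun s _ => saw_nv s) (fun _ => 1) a hD
      hs (m : ℤ) hm'
    simp only [one_smul, Int.cast_natCast] at h4
    apply of_sum_nc _ (fun i => mul_adm (hnp i) (hD i) hm2)
    rw [sum_gam 0 hnp hint hD hm2]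
    exact h4
  · intro h
    have hint := no_int_of_mult hk hnp hD h
    refine nonint_core (Real.pi : ℂ) hk hr hnp hint hD fun m hm1 hm2 => ?_
    rw [cl_eq_zero.2 LA_pi, smul_zero, neg_zero]
    exact sum_nc (LA_hasAlg _) _ (fun i => mul_adm (hnp i) (hD i) hm2) (h m hm1 hm2)

end

end Pool.Agent.Helper77.Orb
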